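import Pool.Agent.H80.HS.Targets

namespace Pool.Agent.H90.HS.G5
open MeasureTheory Set Pool.Agent.H80.HS
open scoped ContDiff ENNReal

/-- The numerical part. -/
lemma numeric {n : ℕ} {p B T C d : ℝ} (hn : (2 : ℝ) ≤ n) (hp : 1 ≤ p) (hpn : p ≤ n) (hB : 1 ≤ B)
    (hT : T = n * B ^ (p / 2)) (hC : 0 < C) (hd : d = p / (2 * n + 2))
    (h : ((2 * Real.pi / ((2 * (n : ℝ) + 2) * p / (2 * n + 2 - p))) ^ n * (2 * T)) ^
        ((2 * (n : ℝ) + 2 - p) / (2 * n + 2)) ≤
      C * ((2 * (n : ℝ) / p) ^ (p / 2) * Real.exp (-(p / 2)) *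
        (2 * Real.pi / (p * (1 - 1 / (2 * (n : ℝ) / p)))) ^ n * (2 * T + 2 * B ^ (p / 2)))) :
    p / 2 * Real.log (p ^ 2 / (4 * Real.pi * Real.exp 1 * n)) -
      (3 + Real.log B) * p * (p + Real.log n) / n ≤ Real.log C := by
  have hpi := Real.pi_pos
  have hpi1 : 1 ≤ 2 * Real.pi := by have := Real.pi_gt_three; linarith
  have hn0 : (0 : ℝ) < n := by linarith
  have hp0 : 0 < p := by linarith
  have hB0 : 0 < B := by linarith
  have hBp : 0 < B ^ (p / 2) := Real.rpow_pos_of_pos hB0 _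
  have hT0 : 0 < T := by rw [hT]; positivity
  have hQ : (0 : ℝ) < 2 * n + 2 := by linarith
  have hQp : (0 : ℝ) < 2 * n + 2 - p := by linarith
  have hd0 : 0 < d := by rw [hd]; positivity
  have hd1 : d < 1 := by rw [hd, div_lt_one hQ]; linarith
  have hde : (2 * (n : ℝ) + 2 - p) / (2 * n + 2) = 1 - d := by
    rw [hd]; field_simp
  have hq : 2 * Real.pi / ((2 * (n : ℝ) + 2) * p / (2 * n + 2 - p)) =
      2 * Real.pi / p * (1 - d) := by
    rw [hd]; field_simp
  have hx : 1 / (2 * (n : ℝ) / p) = p / (2 * n) := by field_simp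
  set x : ℝ := p / (2 * n) with hxdef
  have hx0 : 0 < x := by rw [hxdef]; positivity
  have hx1 : x ≤ 1 / 2 := by
    rw [hxdef, div_le_iff₀ (by positivity)]; linarith
  have h2 : 2 * T + 2 * B ^ (p / 2) = 2 * T * (1 + 1 / n) := by
    rw [hT]; field_simp
  rw [hde, hq, hx, h2] at h
  have h1d : 0 < 1 - d := by linarith
  have h1x : 0 < 1 - x := by linarith
  have hL : Real.log (((2 * Real.pi / p * (1 - d)) ^ n * (2 * T)) ^ (1 - d)) =
      (1 - d) * (n * (Real.log (2 * Real.pi / p) + Real.log (1 - d)) + Real.log (2 * T)) := by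
    rw [Real.log_rpow (by positivity), Real.log_mul (by positivity) (by positivity),
      Real.log_pow, Real.log_mul (by positivity) (by positivity)]
  have hR : Real.log (C * ((2 * (n : ℝ) / p) ^ (p / 2) * Real.exp (-(p / 2)) *
        (2 * Real.pi / (p * (1 - x))) ^ n * (2 * T * (1 + 1 / n)))) =
      Real.log C + (p / 2 * Real.log (2 * (n : ℝ) / p) - p / 2 +
        n * (Real.log (2 * Real.pi / p) - Real.log (1 - x)) +
        (Real.log (2 * T) + Real.log (1 + 1 / n))) := by
    rw [Real.log_mul hC.ne' (by positivity), Real.log_mul (by positivity) (by positivity),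
      Real.log_mul (by positivity) (by positivity), Real.log_mul (by positivity) (by positivity),
      Real.log_rpow (by positivity), Real.log_exp, Real.log_pow,
      Real.log_mul (x := 2 * T) (by positivity) (by positivity), ← div_div,
      Real.log_div (x := 2 * Real.pi / p) (by positivity) (by positivity)]
    ring
  have hlog := Real.log_le_log (by positivity) h
  rw [hL, hR] at hlog
  have e1 : Real.log (2 * Real.pi / p) = Real.log (2 * Real.pi) - Real.log p :=
    Real.log_div (by positivity) (by positivity)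
  have e2 : Real.log (2 * (n : ℝ) / p) = Real.log (2 * n) - Real.log p :=
    Real.log_div (by positivity) (by positivity)
  have e3 : Real.log (2 * T) = Real.log (2 * n) + p / 2 * Real.log B := by
    rw [hT, ← mul_assoc, Real.log_mul (by positivity) (by positivity), Real.log_rpow hB0]
  have e4 : Real.log (p ^ 2 / (4 * Real.pi * Real.exp 1 * n)) =
      2 * Real.log p - Real.log (2 * Real.pi) - 1 - Real.log (2 * n) := by
    have : 4 * Real.pi * Real.exp 1 * n = (2 * Real.pi) * Real.exp 1 * (2 * n) := by ring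
    rw [this, Real.log_div (by positivity) (by positivity), Real.log_pow,
      Real.log_mul (by positivity) (by positivity), Real.log_mul (by positivity) (by positivity),
      Real.log_exp]
    push_cast
    ring
  have e5 : Real.log (2 * (n : ℝ)) = Real.log 2 + Real.log n :=
    Real.log_mul (by positivity) (by positivity)
  have l2 : (1 / 2 : ℝ) ≤ Real.log 2 := by
    have := Real.log_two_gt_d9; linarith
  have l3 : Real.log 2 ≤ Real.log n := Real.log_le_log (by norm_num) hn
  have l4 : 0 ≤ Real.log (2 * Real.pi) := Real.log_nonneg hpi1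
  have l5 : Real.log p ≤ p := by have := Real.log_le_sub_one_of_pos hp0; linarith
  have l5' : 0 ≤ Real.log p := Real.log_nonneg hp
  have l6 : 0 ≤ Real.log B := Real.log_nonneg hB
  have l7 : Real.log (1 + 1 / n) ≤ 1 / n := by
    have := Real.log_le_sub_one_of_pos (x := 1 + 1 / (n : ℝ)) (by positivity); linarith
  have l8 : -d ≤ (1 - d) * Real.log (1 - d) := by
    have h := Real.one_sub_inv_le_log_of_pos h1d
    have h' := mul_le_mul_of_nonneg_left h h1d.le
    have : (1 - d) * (1 - (1 - d)⁻¹) = -d := by field_simp; ring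
    linarith
  have l9 : -x - 2 * x ^ 2 ≤ Real.log (1 - x) := by
    have h := Real.one_sub_inv_le_log_of_pos h1x
    have : -x - 2 * x ^ 2 ≤ 1 - (1 - x)⁻¹ := by
      rw [← sub_nonneg]
      have : 1 - (1 - x)⁻¹ - (-x - 2 * x ^ 2) = x ^ 2 * (1 - 2 * x) / (1 - x) := by
        field_simp; ring
      rw [this]
      have : 0 ≤ 1 - 2 * x := by linarith
      positivity
    linarith
  -- n d = p / 2 - d
  have m1 : n * d = p / 2 - d := by rw [hd]; field_simp; ring
  have m2 : n * x = p / 2 := by rw [hxdef]; field_simp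
  have m3 : d ≤ x := by
    rw [hd, hxdef]
    exact div_le_div_of_nonneg_left hp0.le (by positivity) (by linarith)
  have l8' : -(p / 2 - d) ≤ n * ((1 - d) * Real.log (1 - d)) := by
    have := mul_le_mul_of_nonneg_left l8 hn0.le
    linarith
  have l9' : -(p / 2) - x * p ≤ n * Real.log (1 - x) := by
    have := mul_le_mul_of_nonneg_left l9 hn0.le
    have e : n * (-x - 2 * x ^ 2) = -(n * x) - 2 * (n * x) * x := by ring
    rw [e, m2] at this
    linarith
  have hn' : (1 : ℝ) / n ≤ 4 * x * Real.log n := by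
    have : (1 : ℝ) / n ≤ 2 * x := by
      rw [hxdef]
      rw [div_le_iff₀ hn0]
      have : 2 * (p / (2 * n)) * n = p := by field_simp
      linarith
    have h2 : 2 * x * 1 ≤ 2 * x * (2 * Real.log n) :=
      mul_le_mul_of_nonneg_left (by linarith) (by linarith)
    linarith
  have hgoal : (3 + Real.log B) * p * (p + Real.log n) / n =
      (3 + Real.log B) * (2 * x) * (p + Real.log n) := by
    rw [hxdef]; field_simp
  rw [hgoal, e4]
  rw [e1, e2, e3] at hlog
  have b1 : d * Real.log p ≤ x * p := mul_le_mul m3 l5 l5' hx0.le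
  have b2 : d * Real.log (2 * n) ≤ x * (2 * Real.log n) :=
    mul_le_mul m3 (by linarith) (by linarith) hx0.le
  have b3 : d * (p / 2 * Real.log B) ≤ x * (p / 2 * Real.log B) :=
    mul_le_mul_of_nonneg_right m3 (by positivity)
  have b4 : 0 ≤ d * Real.log (2 * Real.pi) := by positivity
  have b5 : 0 ≤ x * p * Real.log B := by positivity
  have b6 : 0 ≤ x * Real.log n * Real.log B := by
    have : 0 ≤ Real.log n := by linarith
    positivity
  have b7 : 0 ≤ x * Real.log n := by
    have : 0 ≤ Real.log n := by linarith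
    positivity
  have b8 : 0 ≤ x * p := by positivity
  have m1' : ∀ y : ℝ, n * d * y = (p / 2 - d) * y := fun y => by rw [m1]
  have m1a := m1' (Real.log (2 * Real.pi))
  have m1b := m1' (Real.log p)
  linarith [hlog, m1a, m1b, l7, l8', l9', hn', b1, b2, b3, b4, b5, b6, b7, b8, hd0.le]

theorem g5 (h1 : T_G1) (h2 : T_G2) (h3 : T_G3) (h4 : T_G4) : T_G5 := by
  obtain ⟨B, hB, h4⟩ := h4
  refine ⟨3 + Real.log B, ?_⟩
  intro n hn p C hp hpn hS
  have hn0 : (2 : ℝ) ≤ n := by exact_mod_cast hn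
  have hn1 : 1 ≤ n := by omega
  have hp0 : 0 < p := by linarith
  have hBp : 1 ≤ B ^ (p / 2) := Real.one_le_rpow hB (by linarith)
  obtain ⟨T, hT⟩ : ∃ T : ℝ, T = n * B ^ (p / 2) := ⟨_, rfl⟩
  have hT1 : 1 ≤ T := by rw [hT]; nlinarith
  obtain ⟨g, hg, hgc, hlow, hup⟩ := h4 T hT1
  have hpQ : p < 2 * n + 2 := by linarith
  have hQ : (0 : ℝ) < 2 * n + 2 := by linarith
  have hQp : (0 : ℝ) < 2 * n + 2 - p := by linarith
  have key := h1 n p C hn1 hp hpQ hS g hg hgc
  have hq0 : 0 < (2 * (n : ℝ) + 2) * p / (2 * n + 2 - p) := by positivity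
  have hg1 : ContDiff ℝ 1 g := hg.of_le (by exact_mod_cast le_top)
  have hgd : Continuous (deriv g) := hg1.continuous_deriv le_rfl
  rw [h2 n _ g hq0 hg.continuous hgc] at key
  have hGc : Continuous (fun t => g t ^ 2 + 4 * deriv g t ^ 2) := by
    have := hg.continuous
    fun_prop
  have hGs : HasCompactSupport (fun t => g t ^ 2 + 4 * deriv g t ^ 2) := by
    refine HasCompactSupport.intro hgc (fun t ht => ?_)
    have e1 : g t = 0 := image_eq_zero_of_notMem_tsupport ht
    have e2 : deriv g t = 0 := by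
      have : t ∉ tsupport (deriv g) := fun h => ht (tsupport_deriv_subset (𝕜 := ℝ) (f := g) h)
      exact image_eq_zero_of_notMem_tsupport this
    simp [e1, e2]
  have hm : 1 < 2 * (n : ℝ) / p := by
    rw [lt_div_iff₀ hp0]; linarith
  have k3 := h3 n p (2 * (n : ℝ) / p) (fun t => g t ^ 2 + 4 * deriv g t ^ 2) hp hm hGc hGs
    (fun t => by positivity)
  have kup := hup p hp
  have klow := hlow ((2 * (n : ℝ) + 2) * p / (2 * n + 2 - p)) hq0
  have hpi := Real.pi_pos
  have hlhs : ((2 * Real.pi / ((2 * (n : ℝ) + 2) * p / (2 * n + 2 - p))) ^ n * (2 * T)) ^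
      ((2 * (n : ℝ) + 2 - p) / (2 * n + 2)) ≤
      ((2 * Real.pi / ((2 * (n : ℝ) + 2) * p / (2 * n + 2 - p))) ^ n *
        ∫ t, |g t| ^ ((2 * (n : ℝ) + 2) * p / (2 * n + 2 - p))) ^
      ((2 * (n : ℝ) + 2 - p) / (2 * n + 2)) := by
    refine Real.rpow_le_rpow (by positivity) ?_ (by positivity)
    exact mul_le_mul_of_nonneg_left klow (by positivity)
  have hpos : 0 < ((2 * Real.pi / ((2 * (n : ℝ) + 2) * p / (2 * n + 2 - p))) ^ n * (2 * T)) ^
      ((2 * (n : ℝ) + 2 - p) / (2 * n + 2)) := by positivity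
  have hI : 0 ≤ ∫ z : H n, (Real.exp (-(‖z.1‖ ^ 2 + ‖z.2.1‖ ^ 2) / 2) *
      Real.sqrt ((‖z.1‖ ^ 2 + ‖z.2.1‖ ^ 2) * (g z.2.2 ^ 2 + 4 * deriv g z.2.2 ^ 2))) ^ p :=
    integral_nonneg (fun z => by positivity)
  have hC : 0 < C := by
    by_contra hC
    have : C * ∫ z : H n, (Real.exp (-(‖z.1‖ ^ 2 + ‖z.2.1‖ ^ 2) / 2) *
      Real.sqrt ((‖z.1‖ ^ 2 + ‖z.2.1‖ ^ 2) * (g z.2.2 ^ 2 + 4 * deriv g z.2.2 ^ 2))) ^ p ≤ 0 :=
      mul_nonpos_of_nonpos_of_nonneg (not_lt.mp hC) hI
    linarith
  refine ⟨hC, ?_⟩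
  have h1x : 0 < 1 - 1 / (2 * (n : ℝ) / p) := by
    have : 1 / (2 * (n : ℝ) / p) < 1 := by
      rw [div_lt_one (by linarith)]; exact hm
    linarith
  refine numeric hn0 hp hpn hB hT hC rfl (hlhs.trans (key.trans ?_))
  refine mul_le_mul_of_nonneg_left (k3.trans ?_) hC.le
  exact mul_le_mul_of_nonneg_left kup (by positivity)

end Pool.Agent.H90.HS.G5
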